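import Pool.Agent.Lib.MP_688fd0_co.SQ4.IfaceV2
import Pool.Agent.Lib.MP_688fd0_co.SQ4.E.FlipP
import Pool.Agent.Lib.MP_688fd0_co.SQ3.H22.StartK
import Pool.Agent.Lib.MP_688fd0_co.SQ4.H53.Place
import Pool.Agent.Lib.MP_688fd0_co.SQ4.H41.Ctx

/-!
PLI: the start in the component `x EI` of the inner rungs, if there is no effective reflection.
-/

set_option autoImplicit false

namespace Pool.Agent.Lib.MP_688fd0_co.SQ4.CV

open Pool.Agent.Lib.MP_688fd0_co.OSF Pool.Agent.Lib.MP_688fd0_co.SQ2 Pool.Agent.Lib.MP_688fd0_co.SQ3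
open Pool.Agent.Lib.MP_688fd0_co.SQ4
open SQ2.V (Puz Sub)
open SQ2.V.Puz (St)
open Ct

namespace PlI

section

variable {Q : Type} [Group Q] {B : Lb.{0, 0} Q} {a b : B.L} {eps : Q →* ℤˣ} {D : Subgroup Q} {z : Q} {k : ℕ}
  (H : HypC B a b eps D z k)

include H

/-- A function which is constant along `U` is constant on the lines. -/
theorem line_const {α : Type*} {f : Q → α} (hf : ∀ y, f (H.up.U y) = f y) {x y : Q}
    (h : lnU H.up x = lnU H.up y) : f x = f y := by
  obtain ⟨t, rfl⟩ := (H53.lnU_iff H).1 h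
  clear h
  induction t with
  | zero => rw [pow_zero]; rfl
  | succ t ih =>
    rw [pow_succ', Equiv.Perm.mul_apply, hf]
    exact ih

theorem EI_leD : EI B a b eps D z k ≤ D := by
  unfold EI
  rw [Subgroup.closure_le]
  exact fun q hq => SI_mem H hq

theorem eps_EI {e : Q} (he : e ∈ EI B a b eps D z k) : eps e = 1 := H.leD (EI_leD H he)

variable (hno : ∀ s, ¬ EffL B a b eps D z k s)

include hno

theorem Gn_SI {h : Q} (hh : h ∈ Gn B a b eps D z k) : h ∈ SI B a b eps D z k := by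
  rcases hh with hh | ⟨t, i, ht, -⟩
  · exact hh
  · exact absurd ht (hno t)

theorem EI_conj {e : Q} (he : e ∈ EI B a b eps D z k) (j : ℤ) :
    wC B a b ^ j * e * wC B a b ^ (-j) ∈ EI B a b eps D z k := by
  have h0 : ∀ q ∈ SI B a b eps D z k, wC B a b ^ j * q * wC B a b ^ (-j) ∈ EI B a b eps D z k :=
    fun q hq => Subgroup.subset_closure (Gn_SI H hno (Gn_conj H (Or.inl hq) j))
  unfold EI at he
  induction he using Subgroup.closure_induction with
  | mem q hq => exact h0 q hq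
  | one =>
    rw [mul_one, ← zpow_add, add_neg_cancel, zpow_zero]
    exact Subgroup.one_mem _
  | mul u v _ _ hu hv =>
    have e1 : wC B a b ^ j * (u * v) * wC B a b ^ (-j) =
        (wC B a b ^ j * u * wC B a b ^ (-j)) * (wC B a b ^ j * v * wC B a b ^ (-j)) := by
      rw [zpow_neg]
      group
    rw [e1]
    exact Subgroup.mul_mem _ hu hv
  | inv u _ hu =>
    have e1 : wC B a b ^ j * u⁻¹ * wC B a b ^ (-j) = (wC B a b ^ j * u * wC B a b ^ (-j))⁻¹ := by
      rw [zpow_neg]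
      group
    rw [e1]
    exact Subgroup.inv_mem _ hu

omit hno in
/-- The sum over `y EI`. -/
theorem sum_EI [Fintype Q] [DecidablePred (· ∈ EI B a b eps D z k)] {R : Type*} [AddCommMonoid R] (θ : Q → R)
    (y : Q) {e : Q} (he : e ∈ EI B a b eps D z k) :
    ∑ t ∈ Finset.univ.filter (· ∈ EI B a b eps D z k), θ (y * e * t) =
      ∑ t ∈ Finset.univ.filter (· ∈ EI B a b eps D z k), θ (y * t) := by
  refine Finset.sum_bij' (fun t _ => e * t) (fun t _ => e⁻¹ * t) ?_ ?_ ?_ ?_ ?_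
  · intro t ht
    rw [Finset.mem_filter] at ht ⊢
    exact ⟨Finset.mem_univ _, Subgroup.mul_mem _ he ht.2⟩
  · intro t ht
    rw [Finset.mem_filter] at ht ⊢
    exact ⟨Finset.mem_univ _, Subgroup.mul_mem _ (Subgroup.inv_mem _ he) ht.2⟩
  · intro t _
    exact inv_mul_cancel_left _ _
  · intro t _
    exact mul_inv_cancel_left _ _
  · intro t _
    show θ (y * e * t) = θ (y * (e * t))
    rw [mul_assoc]

theorem sum_w [Fintype Q] [DecidablePred (· ∈ EI B a b eps D z k)] {R : Type*} [AddCommMonoid R] (θ : Q → R)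
    (hθ : ∀ x y, lnU H.up x = lnU H.up y → θ x = θ y) {y : Q} (hy : eps y = 1) (j : ℤ) :
    ∑ t ∈ Finset.univ.filter (· ∈ EI B a b eps D z k), θ (y * wC B a b ^ j * t) =
      ∑ t ∈ Finset.univ.filter (· ∈ EI B a b eps D z k), θ (y * t) := by
  refine Finset.sum_bij' (fun t _ => wC B a b ^ j * t * wC B a b ^ (-j))
    (fun t _ => wC B a b ^ (-j) * t * wC B a b ^ (- -j)) ?_ ?_ ?_ ?_ ?_
  · intro t ht
    rw [Finset.mem_filter] at ht ⊢
    exact ⟨Finset.mem_univ _, EI_conj H hno ht.2 j⟩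
  · intro t ht
    rw [Finset.mem_filter] at ht ⊢
    exact ⟨Finset.mem_univ _, EI_conj H hno ht.2 (-j)⟩
  · intro t _
    show wC B a b ^ (-j) * (wC B a b ^ j * t * wC B a b ^ (-j)) * wC B a b ^ (- -j) = t
    rw [neg_neg, zpow_neg]
    group
  · intro t _
    show wC B a b ^ j * (wC B a b ^ (-j) * t * wC B a b ^ (- -j)) * wC B a b ^ (-j) = t
    rw [neg_neg, zpow_neg]
    group
  · intro t ht
    rw [Finset.mem_filter] at ht
    have ht1 := eps_EI H ht.2
    apply hθ
    rw [lnU_iff' H]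
    · refine ⟨-j, ?_⟩
      simp only [mul_assoc]
    · rw [map_mul, map_mul, map_zpow, eps_w H, one_zpow, hy, ht1, one_mul, one_mul]
    · rw [map_mul, map_mul, map_mul, map_zpow, map_zpow, eps_w H, one_zpow, one_zpow, hy, ht1, one_mul, one_mul,
        one_mul]

/-- The sum does not depend on `y`. -/
theorem sum_const [Fintype Q] [DecidablePred (· ∈ EI B a b eps D z k)] {R : Type*} [AddCommMonoid R] (θ : Q → R)
    (hθ : ∀ x y, lnU H.up x = lnU H.up y → θ x = θ y) {y y' : Q} (hy : eps y = 1) (hy' : eps y' = 1) :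
    ∑ t ∈ Finset.univ.filter (· ∈ EI B a b eps D z k), θ (y * t) =
      ∑ t ∈ Finset.univ.filter (· ∈ EI B a b eps D z k), θ (y' * t) := by
  have hline : ∀ u v : Q, eps u = 1 → eps v = 1 → lnU H.up u = lnU H.up v →
      ∑ t ∈ Finset.univ.filter (· ∈ EI B a b eps D z k), θ (u * t) =
      ∑ t ∈ Finset.univ.filter (· ∈ EI B a b eps D z k), θ (v * t) := by
    intro u v hu hv huv
    obtain ⟨j, rfl⟩ := (lnU_iff' H hu hv).1 huv
    exact (sum_w H hno θ hθ hu j).symm
  have key := Eg_conn H (fun L L' => ∀ u v : Q, eps u = 1 → eps v = 1 → lnU H.up u = L → lnU H.up v = L' →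
      ∑ t ∈ Finset.univ.filter (· ∈ EI B a b eps D z k), θ (u * t) =
      ∑ t ∈ Finset.univ.filter (· ∈ EI B a b eps D z k), θ (v * t))
    { refl := fun L u v hu hv h1 h2 => hline u v hu hv (h1.trans h2.symm)
      symm := fun h u v hu hv h1 h2 => (h v u hv hu h2 h1).symm
      trans := fun {L L' L''} h h' u v hu hv h1 h2 => by
        obtain ⟨m, hm, hm'⟩ := lnU_ker H L'
        exact (h u m hu hm h1 hm').trans (h' m v hm hv hm' h2) }
    (fun L L' hE u v hu hv h1 h2 => by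
      obtain ⟨m, h, hm, hh, h3, h4⟩ := hE
      have hh' : h ∈ EI B a b eps D z k := Subgroup.subset_closure (Gn_SI H hno hh)
      have hmh : eps (m * h) = 1 := by rw [map_mul, hm, eps_EI H hh', one_mul]
      rw [hline u m hu hm (h1.trans h3.symm), hline v (m * h) hv hmh (h2.trans h4.symm)]
      exact (sum_EI H θ m hh').symm)
  exact key _ _ y y' hy hy' rfl rfl

/-- The weight of `x EI` is not zero. -/
theorem sum_ne [Fintype Q] [DecidablePred (· ∈ EI B a b eps D z k)] {cl d : Q → Bool}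
    (hcl : ∀ y, cl (H.up.U y) = cl y) (hd : ∀ y, d (H.up.U y) = d y) (γ : Bool)
    (hγ : ∃ y, cl y = γ) (hone : ∀ y y', cl y = true → cl y' = true → lnU H.up y = lnU H.up y')
    (hodd : Odd (Nat.card {l : Quotient (Equiv.Perm.SameCycle.setoid H.up.U) // ∃ y, cl y = false ∧ lnU H.up y = l}))
    {x : Q} (hx : eps x = 1) :
    ∑ t ∈ Finset.univ.filter (· ∈ EI B a b eps D z k), (wcl cl d γ (x * t) : ℤ) ≠ 0 := by
  let cl' : Quotient (Equiv.Perm.SameCycle.setoid H.up.U) → Bool :=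
    Quotient.lift cl fun u v huv => line_const H hcl (Quotient.sound huv)
  let d' : Quotient (Equiv.Perm.SameCycle.setoid H.up.U) → Bool :=
    Quotient.lift d fun u v huv => line_const H hd (Quotient.sound huv)
  have hodd' : Odd (Nat.card {l // cl' l = γ}) := by
    cases γ with
    | false =>
      have e : Nat.card {l // cl' l = false} = Nat.card {l : Quotient (Equiv.Perm.SameCycle.setoid H.up.U) //
          ∃ y, cl y = false ∧ lnU H.up y = l} := by
        refine Nat.card_congr (Equiv.subtypeEquivRight fun l => ?_)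
        constructor
        · intro h
          obtain ⟨y, rfl⟩ := Quotient.exists_rep l
          exact ⟨y, h, rfl⟩
        · rintro ⟨y, h, rfl⟩
          exact h
      rw [e]
      exact hodd
    | true =>
      have e : Nat.card {l // cl' l = true} = 1 := by
        rw [Nat.card_eq_one_iff_unique]
        constructor
        · constructor
          rintro ⟨l, hl⟩ ⟨l', hl'⟩
          obtain ⟨y, rfl⟩ := Quotient.exists_rep l
          obtain ⟨y', rfl⟩ := Quotient.exists_rep l'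
          exact Subtype.ext (hone y y' hl hl')
        · obtain ⟨y, hy⟩ := hγ
          exact ⟨⟨lnU H.up y, hy⟩⟩
      rw [e]
      exact odd_one
  obtain ⟨y, hy, hsum⟩ := H53.place H cl' d' γ hodd' (Finset.univ.filter (· ∈ EI B a b eps D z k))
    ⟨1, Finset.mem_filter.2 ⟨Finset.mem_univ _, Subgroup.one_mem _⟩⟩
  intro h0
  apply hsum
  have h1 := sum_const H hno (fun v => (wcl cl d γ v : ℤ)) (fun u v huv => by
    have e1 := line_const H hcl huv
    have e2 := line_const H hd huv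
    simp only [wcl, e1, e2]) hy hx
  exact h1.trans h0

omit hno in
/-- The number of the elements of `EI`. -/
theorem card_EI [Fintype Q] [DecidablePred (· ∈ EI B a b eps D z k)] :
    (Finset.univ.filter (· ∈ EI B a b eps D z k)).card ≤ k := by
  have h1 : (Finset.univ.filter (· ∈ EI B a b eps D z k)).card = Nat.card (EI B a b eps D z k) := by
    rw [Nat.card_eq_fintype_card, Fintype.card_subtype]
  rw [h1]
  exact (Subgroup.card_le_of_le (EI_leD H)).trans (Nat.le_of_dvd H.kpos H.card)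

/-- The weight of `x EI` modulo `p`. -/
theorem sum_ne_p [Fintype Q] [DecidablePred (· ∈ EI B a b eps D z k)] {cl d : Q → Bool}
    (hcl : ∀ y, cl (H.up.U y) = cl y) (hd : ∀ y, d (H.up.U y) = d y) (γ : Bool)
    (hγ : ∃ y, cl y = γ) (hone : ∀ y y', cl y = true → cl y' = true → lnU H.up y = lnU H.up y')
    (hodd : Odd (Nat.card {l : Quotient (Equiv.Perm.SameCycle.setoid H.up.U) // ∃ y, cl y = false ∧ lnU H.up y = l}))
    {x : Q} (hx : eps x = 1) {p : ℕ} (hp : k < p) :
    ∑ t ∈ Finset.univ.filter (· ∈ EI B a b eps D z k), (wcl cl d γ (x * t) : ZMod p) ≠ 0 := by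
  intro h0
  have h := sum_ne H hno hcl hd γ hγ hone hodd hx
  apply h
  have h1 : ((∑ t ∈ Finset.univ.filter (· ∈ EI B a b eps D z k), (wcl cl d γ (x * t) : ℤ) : ℤ) : ZMod p) = 0 := by
    rw [← h0, Int.cast_sum]
    refine Finset.sum_congr rfl fun s _ => ?_
    unfold wcl
    split_ifs <;> simp
  rw [ZMod.intCast_zmod_eq_zero_iff_dvd] at h1
  refine Int.eq_zero_of_abs_lt_dvd h1 ?_
  refine (H53.abs_sum_wcl cl d γ _ fun s => x * s).trans_lt ?_
  have := card_EI H
  exact_mod_cast lt_of_le_of_lt this hp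

end

end PlI

open PlI in
theorem plI : PlIS := by
  classical
  intro Q _ _ B a b eps D z k H c W _ _ _ _ hno d cl N x s₁ s₂ F rk hC i T c' r h hT hc' hY hIn hF γ hγ p hp hkp
  have hfin := H.fin
  have _i : Fintype Q := Fintype.ofFinite Q
  have hfact : Fact p.Prime := hp
  -- the strands lie in the kernel
  have hepsF : ∀ v ∈ F i, eps v = 1 := by
    intro v hv
    have h1 : eps ((x i)⁻¹ * v) = 1 := H.leD (hF v hv)
    rw [map_mul, map_inv, hC.ex i, inv_one, one_mul] at h1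
    exact h1
  have hrf : ∀ v : {v // v ∈ F i}, rfC eps (B.q a) (v : Q) = v := by
    intro v
    unfold rfC
    rw [if_pos (hepsF _ v.2)]
  have hmemF : ∀ e ∈ EI B a b eps D z k, ∀ v ∈ F i, v * e ∈ F i := fun e he v hv =>
    (hC.fr i).inv v hv e (EI_leD H he)
  -- the leaves
  have hne1 : x i ≠ s₁ i := fun e => hC.tree.cl i (by rw [e])
  have hne12 : s₁ i ≠ s₂ i := fun e => hC.tree.lm i (by rw [e])
  have hleaf : ∀ s, Ed B a b eps D z k (c + 2) (x i) s → ∃ q ∈ SI B a b eps D z k, s = x i * q := by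
    rintro s (hs | ⟨l, n, j, hl, -⟩)
    · exact hs
    · exact absurd hl (hno l)
  obtain ⟨q₁, hq₁, hs₁⟩ := hleaf _ (hC.e₁ i)
  obtain ⟨q₂, hq₂, hs₂⟩ := hleaf _ (hC.e₂ i)
  -- the component
  obtain ⟨A, hAdef⟩ : ∃ A : {v // v ∈ F i} → Prop,
      A = fun v : {v // v ∈ F i} => (x i)⁻¹ * (v : Q) ∈ EI B a b eps D z k := ⟨_, rfl⟩
  have hA : ∀ v, A v ↔ (x i)⁻¹ * (v : Q) ∈ EI B a b eps D z k := fun v => by rw [hAdef]
  have hx0 : (T.l₀ : Q) = x i := hT.hx
  have hAl : A T.l₀ := by rw [hA, hx0, inv_mul_cancel]; exact Subgroup.one_mem _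
  have hfam := hT.fam c'
  have hstep : ∀ q ∈ SI B a b eps D z k, ∀ v v' : {v // v ∈ F i}, (v' : Q) = v * q → ∃ ρ : T.Rc c',
      (T.X c').x ρ = v ∧ (T.X c').y ρ = v' := by
    intro q hq v v' hv
    obtain ⟨ρ, -, h1, h2⟩ := hfam.inn v (hY v) q hq
    refine ⟨ρ, h1, Subtype.ext ?_⟩
    rw [hrf, hrf] at h2
    rw [h2, hv]
  have hcomp : T.IsComp (fun c'' => c'' = c') T.l₀ A := by
    have hsymm : ∀ u v : {v // v ∈ F i}, Relation.ReflTransGen (T.Jn (fun c'' => c'' = c')) u v →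
        Relation.ReflTransGen (T.Jn (fun c'' => c'' = c')) v u := by
      intro u v huv
      induction huv with
      | refl => exact Relation.ReflTransGen.refl
      | tail _ hjn ih =>
        obtain ⟨c'', hc'', ρ, h1⟩ := hjn
        exact (Relation.ReflTransGen.single ⟨c'', hc'', ρ, h1.symm⟩).trans ih
    have hpath : ∀ e ∈ EI B a b eps D z k, ∀ v v' : {v // v ∈ F i}, (v' : Q) = v * e →
        Relation.ReflTransGen (T.Jn (fun c'' => c'' = c')) v v' := by
      intro e he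
      unfold EI at he
      induction he using Subgroup.closure_induction with
      | mem q hq =>
        intro v v' hv
        obtain ⟨ρ, h1, h2⟩ := hstep q hq v v' hv
        exact Relation.ReflTransGen.single ⟨c', rfl, ρ, Or.inl ⟨h1, h2⟩⟩
      | one =>
        intro v v' hv
        rw [mul_one] at hv
        rw [Subtype.ext hv]
      | mul e e' he he' ih ih' =>
        intro v v' hv
        have h1 : (v : Q) * e ∈ F i := hmemF e he _ v.2
        exact (ih v ⟨_, h1⟩ rfl).trans (ih' ⟨_, h1⟩ v' (by rw [hv, mul_assoc]))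
      | inv e he ih =>
        intro v v' hv
        exact hsymm _ _ (ih v' v (by rw [hv, inv_mul_cancel_right]))
    intro v
    constructor
    · intro hv
      refine hpath _ ((hA v).1 hv) _ _ ?_
      rw [hx0, mul_inv_cancel_left]
    · intro hv
      induction hv with
      | refl => exact hAl
      | tail _ hjn ih =>
        obtain ⟨c'', hc'', ρ, hρ⟩ := hjn
        have hin : T.In c'' ρ := by subst hc''; exact hIn ρ
        obtain ⟨-, q, hq, hq'⟩ := (hT.fam c'').inner ρ hin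
        rw [hrf, hrf] at hq'
        have hqE : q ∈ EI B a b eps D z k := Subgroup.subset_closure hq
        rcases hρ with ⟨rfl, rfl⟩ | ⟨rfl, rfl⟩
        · rw [hA, hq', ← mul_assoc]
          exact Subgroup.mul_mem _ ((hA _).1 ih) hqE
        · rw [hA] at ih ⊢
          rw [hq', ← mul_assoc] at ih
          have h1 := Subgroup.mul_mem _ ih (Subgroup.inv_mem _ hqE)
          rwa [mul_inv_cancel_right] at h1
  have hcmp : T.Cmp (fun c'' => c'' = c') A := hcomp.cmp
  set E := (T.clo hT hcmp).sub with hE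
  have hrange : ∀ s, s ∈ Set.range E.iS ↔ A s := (T.clo hT hcmp).range
  -- the first rung
  obtain ⟨ρ₀, hρx, hρy⟩ := hstep q₁ hq₁ T.l₀ ⟨s₁ i, hC.f₁ i⟩ (by rw [hx0]; exact hs₁)
  have hof : T.P.oth T.f T.l₀ = ⟨s₁ i, hC.f₁ i⟩ := Subtype.ext hT.h₁
  have hog : T.P.oth T.g T.l₀ = ⟨s₂ i, hC.f₂ i⟩ := Subtype.ext hT.h₂
  have hrg : T.rg (fun c'' => c'' = c') A ⟨c', ρ₀⟩ := ⟨rfl, by rw [hρx]; exact hAl⟩
  have hoth0 : T.P.oth ⟨c', ρ₀⟩ T.l₀ = ⟨s₁ i, hC.f₁ i⟩ := by
    have hxx : T.l₀ = T.P.x ⟨c', ρ₀⟩ := hρx.symm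
    unfold SQ2.V.Puz.oth
    rw [if_pos hxx]
    exact hρy
  have hA₂ : A ⟨s₂ i, hC.f₂ i⟩ := by
    rw [hA]
    show (x i)⁻¹ * s₂ i ∈ _
    rw [hs₂, inv_mul_cancel_left]
    exact Subgroup.subset_closure hq₂
  -- weights
  set wt : {v // v ∈ F i} → ZMod p := fun v => wcl cl d γ (v : Q) with hwt
  have hd1 : wt (T.P.oth T.f T.l₀) = - wt T.l₀ := by
    rw [hof, hwt]
    simp only [hx0, wcl, hC.c₀ i, hC.c₁ i, hC.d₁ i]
    cases γ <;> cases d (x i) <;> simp
  have hd2 : wt (T.P.oth T.g T.l₀) = - wt T.l₀ := by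
    rw [hog, hwt]
    simp only [hx0, wcl, hC.c₀ i, hC.c₂ i, hC.d₂ i]
    cases γ <;> cases d (x i) <;> simp
  have hsum : (∑ s, wt (E.iS s)) ≠ 0 := by
    have h1 := sum_ne_p H hno hC.c_line hC.d_line γ hγ hC.one hC.odd (hC.ex i) (show k < p by omega)
    intro h2
    apply h1
    rw [← h2]
    symm
    refine Finset.sum_bij' (fun s _ => (x i)⁻¹ * ((s.1 : {v // v ∈ F i}) : Q))
      (fun t ht => ⟨⟨x i * t, hmemF t (Finset.mem_filter.1 ht).2 _ (hC.fr i).fx⟩, by
        rw [hA]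
        show (x i)⁻¹ * (x i * t) ∈ _
        rw [inv_mul_cancel_left]
        exact (Finset.mem_filter.1 ht).2⟩) ?_ ?_ ?_ ?_ ?_
    · intro s _
      exact Finset.mem_filter.2 ⟨Finset.mem_univ _, (hA _).1 s.2⟩
    · intro t _
      exact Finset.mem_univ _
    · intro s _
      refine Subtype.ext (Subtype.ext ?_)
      exact mul_inv_cancel_left _ _
    · intro t _
      exact inv_mul_cancel_left _ _
    · intro s _
      show wcl cl d γ ((s.1 : {v // v ∈ F i}) : Q) = wcl cl d γ (x i * ((x i)⁻¹ * ((s.1 : {v // v ∈ F i}) : Q)))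
      rw [mul_inv_cancel_left]
  obtain ⟨s, ρ, hreach, hs1, hKr, hinj, hgood, hne⟩ := SQ3.V.startwK _ _ _ _ (ZMod p) T.P (T.clo hT hcmp).puz E T.Kb wt
    T.f T.g T.l₀ ⟨T.l₀, hAl⟩ ⟨⟨c', ρ₀⟩, hrg⟩ ⟨⟨c', ρ₀⟩, hrg⟩ hT.ret hT.kg hT.adj hd1 hd2 (Or.inl rfl)
    ((E.on_iff _ _).1 (Or.inl hρx.symm))
    (fun h1 => by
      exfalso
      rw [← E.oth_eq] at h1
      have h2 : T.fw.puz.oth (E.iR ⟨⟨c', ρ₀⟩, hrg⟩) (E.iS ⟨T.l₀, hAl⟩) = ⟨s₁ i, hC.f₁ i⟩ := hoth0
      rw [h2, hog] at h1
      rcases h1 with h1 | h1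
      · apply hne1
        rw [← hx0, ← h1]
      · exact hne12 (congrArg Subtype.val h1))
    (fun h1 => by
      exfalso
      rw [hof] at h1
      apply hne1
      rw [← hx0]
      exact congrArg Subtype.val h1)
    hsum
    (fun h1 => by
      exfalso
      rw [hrange, hrange, hog] at h1
      rcases h1 with h1 | h1
      · exact h1 hAl
      · exact h1 hA₂)
  obtain ⟨⟨c'', ρ'⟩, hc1, hA1⟩ := ρ
  have hc1' : c'' = c' := hc1
  subst hc1'
  refine ⟨T.l₀, A, ρ', hcomp, hA1, fun K hK => ⟨s, hreach, ⟨ρ', hs1, hA1, hK⟩, hinj, hgood, ?_⟩⟩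
  intro inst h0
  apply hne
  refine Eq.trans ?_ h0
  refine Finset.sum_congr rfl fun t _ => ?_
  by_cases h1 : A (s.2 t)
  · exact (if_pos ((hrange _).2 h1)).trans (if_pos h1).symm
  · exact (if_neg (fun h2 => h1 ((hrange _).1 h2))).trans (if_neg h1).symm

end Pool.Agent.Lib.MP_688fd0_co.SQ4.CV
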